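import Pool.Agent.H242.LD.Stm2

set_option autoImplicit false

/-!
# Cone and curvature estimates along a horizontal line (statement `S_DIFF` of project LE)
-/

namespace Pool.Agent.H722.LE.DIFF

open Real Set Metric Filter Topology
open Pool.Agent.H242.LD Pool.Agent.H242.TM

/-- the second coordinate of the `n`-th iterate along the horizontal line -/
noncomputable def Yn (a x y : ℝ) (n : ℕ) (τ : ℝ) : ℝ := ((F a)^[n] (hor x y τ)).2

lemma X_zero (a x y : ℝ) : Xn a x y 0 = fun τ => x + τ := rfl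

lemma Y_zero (a x y : ℝ) : Yn a x y 0 = fun _ => y := rfl

lemma X_succ (a x y : ℝ) (n : ℕ) :
    Xn a x y (n + 1) = fun τ => phi a (Xn a x y n τ) - Yn a x y n τ := by
  funext τ
  exact iter_fst' a n (hor x y τ)

lemma Y_succ (a x y : ℝ) (n : ℕ) : Yn a x y (n + 1) = Xn a x y n := by
  funext τ
  exact iter_snd a n (hor x y τ)

lemma phi_smooth (a : ℝ) : ContDiff ℝ 2 (phi a) := by
  have h : ContDiff ℝ 2 fun x : ℝ => 2 * x + a * sin (2 * π * x) :=
    (contDiff_const.mul contDiff_id).add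
      (contDiff_const.mul (Real.contDiff_sin.comp (contDiff_const.mul contDiff_id)))
  exact h

lemma smooth (a x y : ℝ) (n : ℕ) : ContDiff ℝ 2 (Xn a x y n) ∧ ContDiff ℝ 2 (Yn a x y n) := by
  induction n with
  | zero =>
    rw [X_zero, Y_zero]
    exact ⟨contDiff_const.add contDiff_id, contDiff_const⟩
  | succ n ih =>
    rw [X_succ, Y_succ]
    exact ⟨((phi_smooth a).comp ih.1).sub ih.2, ih.1⟩

lemma has1 {f : ℝ → ℝ} (h : ContDiff ℝ 2 f) (τ : ℝ) : HasDerivAt f (deriv f τ) τ :=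
  (h.differentiable (by norm_num)).differentiableAt.hasDerivAt

lemma has2 {f : ℝ → ℝ} (h : ContDiff ℝ 2 f) (τ : ℝ) :
    HasDerivAt (deriv f) (deriv (deriv f) τ) τ := by
  have h1 : ContDiff ℝ 1 (deriv f) := by
    have h2 : ContDiff ℝ (1 + 1) f := by
      rw [one_add_one_eq_two]
      exact h
    exact (contDiff_succ_iff_deriv.mp h2).2.2
  exact (h1.differentiable (by norm_num)).differentiableAt.hasDerivAt

lemma deriv_X (a x y : ℝ) (n : ℕ) :
    deriv (Xn a x y (n + 1)) = fun τ =>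
      dphi a (Xn a x y n τ) * deriv (Xn a x y n) τ - deriv (Yn a x y n) τ := by
  funext τ
  rw [X_succ]
  have hX := has1 (smooth a x y n).1 τ
  have hY := has1 (smooth a x y n).2 τ
  exact (((phi_hasDeriv a (Xn a x y n τ)).comp τ hX).sub hY).deriv

/-- the second derivative of `phi a` -/
noncomputable def ddphi (a x : ℝ) : ℝ := -(4 * π ^ 2 * a * sin (2 * π * x))

lemma dphi_hasDeriv (a x : ℝ) : HasDerivAt (dphi a) (ddphi a x) x := by
  have h1 : HasDerivAt (fun y : ℝ => 2 * π * y) (2 * π * 1) x :=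
    (hasDerivAt_id x).const_mul (2 * π)
  have h2 : HasDerivAt (fun y : ℝ => 2 + 2 * π * a * cos (2 * π * y))
      (2 * π * a * (-sin (2 * π * x) * (2 * π * 1))) x :=
    ((h1.cos).const_mul (2 * π * a)).const_add 2
  refine h2.congr_deriv ?_
  unfold ddphi
  ring

lemma ddphi_le (a x : ℝ) : |ddphi a x| ≤ 4 * π ^ 2 * |a| := by
  unfold ddphi
  rw [abs_neg, abs_mul, abs_mul, abs_of_nonneg (by positivity : (0 : ℝ) ≤ 4 * π ^ 2)]
  have h := abs_sin_le_one (2 * π * x)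
  calc 4 * π ^ 2 * |a| * |sin (2 * π * x)| ≤ 4 * π ^ 2 * |a| * 1 :=
        mul_le_mul_of_nonneg_left h (by positivity)
    _ = 4 * π ^ 2 * |a| := mul_one _

lemma dphi_le (a x : ℝ) : |dphi a x| ≤ 2 * π * |a| + 2 := by
  unfold dphi
  have h := abs_cos_le_one (2 * π * x)
  have h1 : |2 * π * a * cos (2 * π * x)| ≤ 2 * π * |a| := by
    rw [abs_mul, abs_mul, abs_of_nonneg (by positivity : (0 : ℝ) ≤ 2 * π)]
    calc 2 * π * |a| * |cos (2 * π * x)| ≤ 2 * π * |a| * 1 :=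
          mul_le_mul_of_nonneg_left h (by positivity)
      _ = 2 * π * |a| := mul_one _
  have h2 := abs_add_le 2 (2 * π * a * cos (2 * π * x))
  rw [abs_of_pos (by norm_num : (0 : ℝ) < 2)] at h2
  linarith

lemma deriv2_X (a x y : ℝ) (n : ℕ) (τ : ℝ) :
    deriv (deriv (Xn a x y (n + 1))) τ =
      ddphi a (Xn a x y n τ) * (deriv (Xn a x y n) τ) ^ 2 +
        dphi a (Xn a x y n τ) * deriv (deriv (Xn a x y n)) τ - deriv (deriv (Yn a x y n)) τ := by
  rw [deriv_X]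
  have hX := has1 (smooth a x y n).1 τ
  have hX2 := has2 (smooth a x y n).1 τ
  have hY2 := has2 (smooth a x y n).2 τ
  have h := ((((dphi_hasDeriv a (Xn a x y n τ)).comp τ hX).mul hX2).sub hY2).deriv
  refine (Eq.trans ?_ h).trans ?_
  · rfl
  · simp only [Function.comp]
    ring

/-- the lower bound for the new derivative -/
lemma low_alg (D p q : ℝ) (hq : |q| ≤ |p|) : (|D| - 1) * |p| ≤ |D * p - q| := by
  have h1 : |D * p| ≤ |D * p - q| + |q| := by
    calc |D * p| = |(D * p - q) + q| := by congr 1; ring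
      _ ≤ |D * p - q| + |q| := abs_add_le _ _
  rw [abs_mul] at h1
  linarith

/-- the step of the induction -/
lemma step_alg (D E p q r s m : ℝ) (hm : 5 ≤ m) (hD : m ≤ |D|) (hE : |E| ≤ m * (m - 3) / 10)
    (hp : p ≠ 0) (hq : |q| ≤ |p|) (hr : |r| ≤ 1 / 10 * p ^ 2) (hs : |s| ≤ 1 / 10 * p ^ 2) :
    D * p - q ≠ 0 ∧ |p| ≤ |D * p - q| ∧ |E * p ^ 2 + D * r - s| ≤ 1 / 10 * (D * p - q) ^ 2 ∧
      |r| ≤ 1 / 10 * (D * p - q) ^ 2 := by
  have hp0 : 0 < |p| := abs_pos.mpr hp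
  have h1 := low_alg D p q hq
  have hD5 : 5 ≤ |D| := hm.trans hD
  have h2 : |p| ≤ |D * p - q| := by nlinarith
  have h3 : 0 < |D * p - q| := lt_of_lt_of_le hp0 h2
  have hp2 : p ^ 2 = |p| ^ 2 := (sq_abs p).symm
  have hP2 : (D * p - q) ^ 2 = |D * p - q| ^ 2 := (sq_abs _).symm
  have h4 : ((|D| - 1) * |p|) ^ 2 ≤ |D * p - q| ^ 2 :=
    pow_le_pow_left₀ (mul_nonneg (by linarith) hp0.le) h1 2
  have h5 : |p| ^ 2 ≤ |D * p - q| ^ 2 := pow_le_pow_left₀ hp0.le h2 2
  refine ⟨abs_pos.mp h3, h2, ?_, ?_⟩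
  · have h6 : |E * p ^ 2 + D * r - s| ≤ |E| * p ^ 2 + |D| * |r| + |s| := by
      calc |E * p ^ 2 + D * r - s| ≤ |E * p ^ 2 + D * r| + |s| := abs_sub _ _
        _ ≤ |E * p ^ 2| + |D * r| + |s| := by
          have := abs_add_le (E * p ^ 2) (D * r)
          linarith
        _ = |E| * p ^ 2 + |D| * |r| + |s| := by
          rw [abs_mul, abs_mul, abs_of_nonneg (sq_nonneg p)]
    have h7 : |E| ≤ |D| * (|D| - 3) / 10 := by
      refine hE.trans ?_
      nlinarith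
    have h8 : |E| * p ^ 2 ≤ |D| * (|D| - 3) / 10 * p ^ 2 :=
      mul_le_mul_of_nonneg_right h7 (sq_nonneg p)
    have h9 : |D| * |r| ≤ |D| * (1 / 10 * p ^ 2) := mul_le_mul_of_nonneg_left hr (abs_nonneg D)
    have h10 : |D| * (|D| - 3) / 10 * p ^ 2 + |D| * (1 / 10 * p ^ 2) + 1 / 10 * p ^ 2 =
        1 / 10 * ((|D| - 1) * |p|) ^ 2 := by
      rw [mul_pow, ← hp2]
      ring
    rw [hP2]
    linarith
  · rw [hP2]
    rw [hp2] at hr
    linarith

lemma ind (a x y m : ℝ) (τ : ℝ) (hm : 5 ≤ m) (ha : 4 * π ^ 2 * |a| ≤ m * (m - 3) / 10)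
    (n : ℕ) (h : ∀ j < n, m ≤ |dphi a (Xn a x y j τ)|) :
    deriv (Xn a x y n) τ ≠ 0 ∧ |deriv (Yn a x y n) τ| ≤ |deriv (Xn a x y n) τ| ∧
      |deriv (deriv (Xn a x y n)) τ| ≤ 1 / 10 * (deriv (Xn a x y n) τ) ^ 2 ∧
      |deriv (deriv (Yn a x y n)) τ| ≤ 1 / 10 * (deriv (Xn a x y n) τ) ^ 2 := by
  induction n with
  | zero =>
    have hX : deriv (Xn a x y 0) = fun _ => (1 : ℝ) := by
      rw [X_zero]
      funext σ
      exact ((hasDerivAt_id σ).const_add x).deriv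
    have hY : deriv (Yn a x y 0) = fun _ => (0 : ℝ) := by
      rw [Y_zero]
      funext σ
      exact (hasDerivAt_const σ y).deriv
    have hX2 : deriv (deriv (Xn a x y 0)) τ = 0 := by
      rw [hX]
      exact (hasDerivAt_const τ (1 : ℝ)).deriv
    have hY2 : deriv (deriv (Yn a x y 0)) τ = 0 := by
      rw [hY]
      exact (hasDerivAt_const τ (0 : ℝ)).deriv
    rw [hX2, hY2, hX, hY]
    norm_num
  | succ n ih =>
    obtain ⟨h1, h2, h3, h4⟩ := ih fun j hj => h j (by omega)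
    have hD := h n (by omega)
    have hE : |ddphi a (Xn a x y n τ)| ≤ m * (m - 3) / 10 := (ddphi_le a _).trans ha
    have hs := step_alg (dphi a (Xn a x y n τ)) (ddphi a (Xn a x y n τ)) (deriv (Xn a x y n) τ)
      (deriv (Yn a x y n) τ) (deriv (deriv (Xn a x y n)) τ) (deriv (deriv (Yn a x y n)) τ) m hm hD
      hE h1 h2 h3 h4
    rw [deriv2_X, deriv_X, Y_succ]
    exact hs

theorem le_DIFF : S_DIFF := by
  intro a x y m n τ hm ha h
  obtain ⟨h1, h2, h3, -⟩ := ind a x y m τ hm ha n h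
  refine ⟨(smooth a x y n).1, h1, h3, ?_, ?_⟩
  · rw [deriv_X]
    have h4 := dphi_le a (Xn a x y n τ)
    calc |dphi a (Xn a x y n τ) * deriv (Xn a x y n) τ - deriv (Yn a x y n) τ|
        ≤ |dphi a (Xn a x y n τ) * deriv (Xn a x y n) τ| + |deriv (Yn a x y n) τ| := abs_sub _ _
      _ ≤ (2 * π * |a| + 2) * |deriv (Xn a x y n) τ| + |deriv (Xn a x y n) τ| := by
        rw [abs_mul]
        exact add_le_add (mul_le_mul_of_nonneg_right h4 (abs_nonneg _)) h2
      _ = (2 * π * |a| + 3) * |deriv (Xn a x y n) τ| := by ring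
  · rw [deriv_X]
    exact low_alg _ _ _ h2

end Pool.Agent.H722.LE.DIFF
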